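import Pool.Agent.H17.QA.HookDefs

/-!
# HG: frames of the faces of a cube, the axes of the module

`Face n = Fin (n+2) × Bool`: normal coordinate and side. `fr i a F`: lattice automorphism; frame coordinate
`0` is the height over the face (`0` on the face, `≤ 0` inside the cube), the other frame coordinates are in
`[0, 2^i)` over the face. Design independent part of the package HookGeo.
-/

open MeasureTheory Filter Topology
open Pool.Agent.H17.IIC Pool.Agent.H41.QC Pool.Agent.H47.GM Pool.Agent.H17.QA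

namespace Pool.Agent.H94.HG

variable {n d : ℕ}

lemma IsAut.trans {φ ψ : V d ≃ V d} (h1 : IsAut φ) (h2 : IsAut ψ) : IsAut (φ.trans ψ) where
  adj x y := by
    rw [Equiv.trans_apply, Equiv.trans_apply, h2.adj, h1.adj]
  box c y r := by
    rw [Equiv.trans_apply, Equiv.trans_apply, h2.box, h1.box]

lemma IsAut.symm {φ : V d ≃ V d} (h : IsAut φ) : IsAut φ.symm where
  adj x y := by
    have := h.adj (φ.symm x) (φ.symm y)
    rw [Equiv.apply_symm_apply, Equiv.apply_symm_apply] at this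
    exact this.symm
  box c y r := by
    have := h.box (φ.symm c) (φ.symm y) r
    rw [Equiv.apply_symm_apply, Equiv.apply_symm_apply] at this
    exact this.symm

/-- a face of a cube: normal coordinate, side -/
abbrev Face (n : ℕ) : Type := Fin (n + 2) × Bool

/-- translation part of the frame -/
def frt (i : ℕ) (a : V (n + 2)) (F : Face n) : V (n + 2) := fun k =>
  if k = F.1 ∧ F.2 = true then (a k + 1) * 2 ^ i - 1 else a k * 2 ^ i

/-- frame of the face `F` of `cube i a` -/
noncomputable def fr (i : ℕ) (a : V (n + 2)) (F : Face n) : V (n + 2) ≃ V (n + 2) :=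
  (sperm (Equiv.swap 0 F.1) (fun k => if k = F.1 then F.2 else true)).trans (Equiv.addRight (frt i a F))

lemma isAut_fr (i : ℕ) (a : V (n + 2)) (F : Face n) : IsAut (fr i a F) :=
  IsAut.trans (isAut_sperm _ _) (isAut_add _)

lemma fr_normal (i : ℕ) (a : V (n + 2)) (F : Face n) (z : V (n + 2)) :
    fr i a F z F.1 = if F.2 then (a F.1 + 1) * 2 ^ i - 1 + z 0 else a F.1 * 2 ^ i - z 0 := by
  show sg (if F.1 = F.1 then F.2 else true) * z (Equiv.swap 0 F.1 F.1) + frt i a F F.1 = _
  rw [Equiv.swap_apply_right, if_pos rfl]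
  unfold frt
  cases h : F.2
  · simp [sg]; ring
  · simp [sg]; ring

lemma fr_lat (i : ℕ) (a : V (n + 2)) (F : Face n) (z : V (n + 2)) {k : Fin (n + 2)} (hk : k ≠ F.1) :
    fr i a F z k = a k * 2 ^ i + z (Equiv.swap 0 F.1 k) := by
  show sg (if k = F.1 then F.2 else true) * z (Equiv.swap 0 F.1 k) + frt i a F k = _
  rw [if_neg hk]
  unfold frt
  rw [if_neg (fun h => hk h.1)]
  simp [sg]; ring

lemma swap_ne {F : Face n} {k : Fin (n + 2)} (hk : k ≠ F.1) : Equiv.swap 0 F.1 k ≠ 0 := by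
  intro h
  apply hk
  have h1 : Equiv.swap 0 F.1 (Equiv.swap 0 F.1 k) = Equiv.swap 0 F.1 0 := by rw [h]
  rwa [Equiv.swap_apply_self, Equiv.swap_apply_left] at h1

lemma mem_cube {i : ℕ} {a x : V d} : x ∈ cube i a ↔ ∀ k, a k * 2 ^ i ≤ x k ∧ x k < (a k + 1) * 2 ^ i := by
  unfold cube
  rw [Fintype.mem_piFinset]
  simp only [Finset.mem_Ico]

/-- over the face, and in the cube -/
lemma fr_mem_cube (i : ℕ) (a : V (n + 2)) (F : Face n) (z : V (n + 2)) :
    fr i a F z ∈ cube i a ↔ (-2 ^ i < z 0 ∧ z 0 ≤ 0) ∧ ∀ k, k ≠ 0 → 0 ≤ z k ∧ z k < 2 ^ i := by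
  rw [mem_cube]
  constructor
  · intro h
    constructor
    · have h1 := h F.1
      rw [fr_normal] at h1
      cases hF : F.2
      · rw [hF] at h1
        simp only [Bool.false_eq_true, if_false] at h1
        have h2 : (a F.1 + 1) * 2 ^ i = a F.1 * 2 ^ i + 2 ^ i := by ring
        rw [h2] at h1
        constructor <;> omega
      · rw [hF] at h1
        simp only [if_true] at h1
        have h2 : (a F.1 + 1) * 2 ^ i = a F.1 * 2 ^ i + 2 ^ i := by ring
        rw [h2] at h1
        constructor <;> omega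
    · intro k hk
      have hk' : Equiv.swap 0 F.1 k ≠ F.1 := by
        intro h'
        apply hk
        have h1 : Equiv.swap 0 F.1 (Equiv.swap 0 F.1 k) = Equiv.swap 0 F.1 F.1 := by rw [h']
        rwa [Equiv.swap_apply_self, Equiv.swap_apply_right] at h1
      have h1 := h (Equiv.swap 0 F.1 k)
      rw [fr_lat i a F z hk', Equiv.swap_apply_self] at h1
      have h2 : (a (Equiv.swap 0 F.1 k) + 1) * 2 ^ i = a (Equiv.swap 0 F.1 k) * 2 ^ i + 2 ^ i := by ring
      rw [h2] at h1
      constructor <;> omega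
  · rintro ⟨⟨h1, h2⟩, h3⟩ k
    have e : (a k + 1) * 2 ^ i = a k * 2 ^ i + 2 ^ i := by ring
    by_cases hk : k = F.1
    · rw [hk, fr_normal]
      rw [hk] at e
      cases hF : F.2
      · simp only [Bool.false_eq_true, if_false]
        rw [e]
        constructor <;> omega
      · simp only [if_true]
        rw [e]
        constructor <;> omega
    · rw [fr_lat i a F z hk, e]
      have h4 := h3 _ (swap_ne hk)
      constructor <;> omega

/-- the region over a face in frame coordinates -/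
def Over (i : ℕ) (z : V d) (k₀ : Fin d) : Prop := 1 ≤ z k₀ ∧ ∀ k, k ≠ k₀ → 0 ≤ z k ∧ z k < 2 ^ i

/-- a point over a face lies outside the cube -/
lemma fr_over_not_mem (i : ℕ) (a : V (n + 2)) (F : Face n) (z : V (n + 2)) (h : 1 ≤ z 0) :
    fr i a F z ∉ cube i a := by
  rw [fr_mem_cube]
  rintro ⟨⟨-, h1⟩, -⟩
  omega

/-- regions over different faces are disjoint -/
lemma fr_disj {i : ℕ} {a : V (n + 2)} {F F' : Face n} {z z' : V (n + 2)} (hF : F ≠ F')
    (hz : Over i z 0) (hz' : Over i z' 0) : fr i a F z ≠ fr i a F' z' := by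
  intro h
  by_cases h1 : F.1 = F'.1
  · have h2 : F.2 ≠ F'.2 := fun h' => hF (Prod.ext h1 h')
    have h3 := congrFun h F.1
    rw [fr_normal, h1, fr_normal] at h3
    have e : (a F'.1 + 1) * 2 ^ i = a F'.1 * 2 ^ i + 2 ^ i := by ring
    have hp : (1 : ℤ) ≤ 2 ^ i := one_le_pow₀ (by norm_num)
    have g1 := hz.1
    have g2 := hz'.1
    cases hF2 : F.2 <;> cases hF2' : F'.2 <;> rw [hF2, hF2'] at h3 h2 <;>
      simp only [Bool.false_eq_true, if_false, if_true] at h3
    · exact h2 rfl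
    · rw [e] at h3; omega
    · rw [e] at h3; omega
    · exact h2 rfl
  · have h3 := congrFun h F.1
    rw [fr_normal, fr_lat i a F' z' h1] at h3
    have h4 := hz'.2 _ (swap_ne h1)
    have h5 := hz.1
    have e : (a F.1 + 1) * 2 ^ i = a F.1 * 2 ^ i + 2 ^ i := by ring
    cases hF2 : F.2 <;> rw [hF2] at h3 <;> simp only [Bool.false_eq_true, if_false, if_true] at h3
    · omega
    · rw [e] at h3; omega

/-- every inner boundary vertex is on a face -/
lemma exists_face {i : ℕ} {a v : V (n + 2)} (h : IB (cube i a : Set (V (n + 2))) v) :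
    ∃ F : Face n, ((fr i a F).symm v) 0 = 0 ∧ ∀ k, k ≠ 0 → 0 ≤ ((fr i a F).symm v) k ∧
      ((fr i a F).symm v) k < 2 ^ i := by
  obtain ⟨hv, w, hw, hwc⟩ := h
  rw [Finset.mem_coe] at hv
  rw [Finset.mem_coe, mem_cube] at hwc
  rw [mem_cube] at hv
  push Not at hwc
  obtain ⟨k, hk⟩ := hwc
  have h1 := LatAdj.abs_le hw k
  rw [abs_le] at h1
  have h2 := hv k
  have key : ∀ F : Face n, F.1 = k → v k = (if F.2 then (a k + 1) * 2 ^ i - 1 else a k * 2 ^ i) →
      ((fr i a F).symm v) 0 = 0 ∧ ∀ k, k ≠ 0 → 0 ≤ ((fr i a F).symm v) k ∧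
      ((fr i a F).symm v) k < 2 ^ i := by
    intro F hF hvk
    set z := (fr i a F).symm v with hz
    have hz' : fr i a F z = v := by rw [hz, Equiv.apply_symm_apply]
    have hmem : fr i a F z ∈ cube i a := by rw [hz', mem_cube]; exact hv
    rw [fr_mem_cube] at hmem
    refine ⟨?_, hmem.2⟩
    have h3 := fr_normal i a F z
    rw [hz', hF, hvk] at h3
    cases hF2 : F.2 <;> rw [hF2] at h3 <;> simp only [Bool.false_eq_true, if_false, if_true] at h3 <;> omega
  by_cases hlow : a k * 2 ^ i ≤ w k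
  · have h3 := hk hlow
    refine ⟨(k, true), key _ rfl ?_⟩
    simp only [if_true]
    omega
  · refine ⟨(k, false), key _ rfl ?_⟩
    simp only [Bool.false_eq_true, if_false]
    omega

/-- centre of the big cube -/
def cen (n m h : ℕ) : V (n + 2) := fun _ => 2 ^ (m - h - 1)

lemma gAut_apply (U m h : ℕ) (π : Equiv.Perm (Fin (n + 2))) (τ : Fin (n + 2) → Bool)
    (x : V (n + 2)) (k : Fin (n + 2)) :
    gAut n U m h π τ x k = sg (τ k) * (x (π k) - 2 * 2 ^ (m - h + 7) * uvec n U (π k)) + 2 ^ (m - h - 1) := by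
  show sg (τ k) * ((x + -((2 * 2 ^ (m - h + 7) : ℤ) • uvec n U)) (π k)) + (2 : ℤ) ^ (m - h - 1) = _
  simp only [Pi.add_apply, Pi.neg_apply, Pi.smul_apply, smul_eq_mul]
  ring

lemma isAut_gAut (U m h : ℕ) (π : Equiv.Perm (Fin (n + 2))) (τ : Fin (n + 2) → Bool) :
    IsAut (gAut n U m h π τ) :=
  IsAut.trans (isAut_add _) (IsAut.trans (isAut_sperm _ _) (isAut_add _))

/-- axis `k₀` with sign `s` -/
noncomputable def gax (n U m h : ℕ) (k₀ : Fin (n + 2)) (s : Bool) : V (n + 2) ≃ V (n + 2) :=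
  gAut n U m h (Equiv.swap 0 k₀) (fun _ => s)

lemma uvec_zero (n U : ℕ) : uvec n U 0 = U := by simp [uvec]

lemma uvec_ne (n U : ℕ) {k : Fin (n + 2)} (hk : k ≠ 0) : uvec n U k = 0 := by simp [uvec, hk]

lemma gax_axis (U m h : ℕ) (k₀ : Fin (n + 2)) (s : Bool) (t : ℤ) :
    gax n U m h k₀ s (t • uvec n U) = cen n m h +
      (sg s * ((t - 2 * 2 ^ (m - h + 7)) * U)) • (Pi.single k₀ 1 : V (n + 2)) := by
  funext k
  unfold gax
  rw [gAut_apply]
  simp only [Pi.smul_apply, smul_eq_mul, Pi.add_apply, cen]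
  by_cases hk : k = k₀
  · subst hk
    rw [Equiv.swap_apply_right, uvec_zero, Pi.single_eq_same]
    ring
  · rw [Pi.single_eq_of_ne hk]
    have h1 : Equiv.swap 0 k₀ k ≠ 0 := swap_ne (F := (k₀, true)) hk
    rw [uvec_ne n U h1]
    ring

/-- the two ends of the module -/
lemma gax_left (U m h : ℕ) (k₀ : Fin (n + 2)) (s : Bool) :
    gax n U m h k₀ s ((2 ^ (m - h + 7) : ℤ) • uvec n U) = cen n m h +
      (-(sg s * (2 ^ (m - h + 7) * U))) • (Pi.single k₀ 1 : V (n + 2)) := by
  rw [gax_axis]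
  congr 2
  ring

lemma gax_right (U m h : ℕ) (k₀ : Fin (n + 2)) (s : Bool) :
    gax n U m h k₀ s ((3 * 2 ^ (m - h + 7) : ℤ) • uvec n U) = cen n m h +
      (sg s * (2 ^ (m - h + 7) * U)) • (Pi.single k₀ 1 : V (n + 2)) := by
  rw [gax_axis]
  congr 2
  ring

/-- preimage of the slab -/
lemma gax_slab {U m h : ℕ} {k₀ : Fin (n + 2)} {s : Bool} {x : V (n + 2)}
    (h1 : |gax n U m h k₀ s x k₀ - 2 ^ (m - h - 1)| ≤ 2 ^ (m - h + 7) * U)
    (h2 : ∀ k, |gax n U m h k₀ s x k - 2 ^ (m - h - 1)| ≤ 4 * 2 ^ (m - h + 7) * U) :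
    x ∈ slab (4 * U) (uvec n U) (2 ^ (m - h + 7)) (3 * 2 ^ (m - h + 7)) := by
  have hsg : ∀ (y : ℤ), |sg s * y| = |y| := by
    intro y
    rw [abs_mul]
    have : |sg s| = 1 := by cases s <;> simp [sg]
    rw [this, one_mul]
  have e0 : |x 0 - 2 * 2 ^ (m - h + 7) * U| ≤ 2 ^ (m - h + 7) * U := by
    have := h1
    unfold gax at this
    rw [gAut_apply, Equiv.swap_apply_right, uvec_zero, add_sub_cancel_right, hsg] at this
    exact this
  have ek : ∀ k, k ≠ 0 → |x k| ≤ 4 * 2 ^ (m - h + 7) * U := by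
    intro k hk
    have := h2 (Equiv.swap 0 k₀ k)
    unfold gax at this
    rw [gAut_apply, Equiv.swap_apply_self, uvec_ne n U hk, add_sub_cancel_right, hsg] at this
    simpa using this
  rw [abs_le] at e0
  have hP : (0 : ℤ) ≤ 2 ^ (m - h + 7) * U := by positivity
  refine ⟨?_, ?_, ?_⟩
  · rw [uvec_zero]
    push_cast
    linarith [e0.1]
  · rw [uvec_zero]
    push_cast
    linarith [e0.2]
  · intro k
    have hb : |x k| ≤ 4 * U * (3 * 2 ^ (m - h + 7)) := by
      by_cases hk : k = 0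
      · subst hk
        rw [abs_le]
        constructor <;> nlinarith [e0.1, e0.2]
      · refine (ek k hk).trans ?_
        nlinarith
    have : ((|x k| : ℤ) : ℝ) ≤ ((4 * U * (3 * 2 ^ (m - h + 7)) : ℤ) : ℝ) := by exact_mod_cast hb
    push_cast at this ⊢
    exact this

end Pool.Agent.H94.HG
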