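import Pool.Agent.H17.QA.HookDefs

/-!
# HG: hook networks with labels in an arbitrary type

`NetX`: the data of `HookNet` with cells and nodes labelled by elements of finite subsets of a type `X`.
`NetX.toHookNet`: conversion to `HookNet`.
-/

open MeasureTheory Filter Topology
open Pool.Agent.H17.IIC Pool.Agent.H41.QC Pool.Agent.H47.GM Pool.Agent.H17.QA

namespace Pool.Agent.H94.HG

variable {n : ℕ}

open Classical in
/-- HOOK NETWORK of the cube `Q = cube i a`, labels in `X` -/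
structure NetX {κ : Kind} {p : unitInterval} (RS : RoadSys κ (n + 2) p) (C₁ : ℝ)
    (w₀ m₀ m₆ : ℕ) (ε : ℝ) (U m h i : ℕ) (a : V (n + 2)) (X : Type*) where
  Cs : Finset X
  Ns : Finset X
  cell : V (n + 2) → X
  cell_mem : ∀ v, cell v ∈ Cs
  Fl : X → Finset (El (n + 2))
  Sp : X → Finset (El (n + 2))
  Fl0 : Finset (El (n + 2))
  Sp0 : Finset (El (n + 2))
  wt : X → ℕ
  anc : X → Finset X
  anc_sub : ∀ c ∈ Cs, anc c ⊆ Ns
  T : X → Finset (Req (n + 2))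
  T0 : Finset (Req (n + 2))
  cell_card : ∀ c ∈ Cs, ((cube i a).filter fun v => IB (cube i a : Set (V (n + 2))) v ∧
    cell v = c).card ≤ m₀
  Fl_card : ∀ c ∈ Cs, (Fl c).card ≤ m₀
  Fl0_card : Fl0.card ≤ m₆
  Sp_sub : ∀ c ∈ Cs, Sp c ⊆ Fl c
  Sp0_sub : Sp0 ⊆ Fl0
  Fl_disj : ∀ c ∈ Cs, ∀ c' ∈ Cs, c ≠ c' → Disjoint (Fl c) (Fl c')
  Fl0_disj : ∀ c ∈ Cs, Disjoint Fl0 (Fl c)
  Fl_out : ∀ c ∈ Cs, ∀ e ∈ Fl c, e ∉ InE (cube i a : Set (V (n + 2)))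
  Fl0_out : ∀ e ∈ Fl0, e ∉ InE (cube i a : Set (V (n + 2)))
  aut : ∀ q, (q ∈ T0 ∨ ∃ ν ∈ Ns, q ∈ T ν) → IsAut q.φ
  dep_out : ∀ q, (q ∈ T0 ∨ ∃ ν ∈ Ns, q ∈ T ν) → ∀ e ∈ q.dep,
    e ∉ InE (cube i a : Set (V (n + 2))) ∧ (e ∈ Fl0 → e ∈ Sp0) ∧ ∀ c ∈ Cs, e ∈ Fl c → e ∈ Sp c
  wt_ge : ∀ ν ∈ Ns, w₀ ≤ wt ν
  anc_card : ∀ c ∈ Cs, ∀ w, (((anc c).filter fun ν => wt ν = w).card : ℝ) ≤ C₁
  T_card : ∀ ν ∈ Ns, ((T ν).card : ℝ) ≤ C₁ * wt ν
  T_rad : ∀ ν ∈ Ns, ∀ q ∈ T ν, (wt ν : ℝ) ≤ C₁ * q.r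
  T0_card : (T0.card : ℝ) ≤ C₁ * U * 2 ^ (m - h)
  T0_sum : ∑ q ∈ T0, RS.C * Real.exp (-RS.c * q.r) ≤ ε
  cnt : ∀ (𝒞 : Finset X) (k : ℕ), 𝒞 ⊆ Cs → 1 ≤ k → 𝒞.card ≤ 2 * k →
    ∑ ν ∈ 𝒞.biUnion anc, (wt ν : ℝ) ≤ C₁ * 2 ^ i * (k : ℝ) ^ gam (n + 2)
  link : ∀ (ω ω' : El (n + 2) → Bool) (D : TData (n + 2)) (J : Finset (Fin D.k)) (v : Fin D.k → ℝ),
    TOK (cube i a : Set (V (n + 2))) D → (TFam κ ω (cube i a : Set (V (n + 2))) D).Nonempty →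
    J.Nonempty → (∀ j ∈ J, 0 ≤ v j) →
    (∀ c, ((J ×ˢ (Finset.univ : Finset Bool)).filter fun js =>
      cell (D.pt js.1 js.2) = c).card ≤ 2) →
    (∀ e, e ∉ Sp0 → (∀ c ∈ Cs, e ∉ Sp c) → ω e = ω' e) →
    (∀ e ∈ Fl0, ω e = true) → (∀ j ∈ J, ∀ s, ∀ e ∈ Fl (cell (D.pt j s)), ω e = true) →
    (∀ q ∈ T0, q.ok RS ω') → (∀ j ∈ J, ∀ s, ∀ ν ∈ anc (cell (D.pt j s)), ∀ q ∈ T ν, q.ok RS ω') →
    ∃ S ⊆ J, S.Nonempty ∧ ∑ j ∈ J, v j ≤ 2 * (n + 2) * ∑ j ∈ S, v j ∧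
      ∃ (π : Equiv.Perm (Fin (n + 2))) (τ : Fin (n + 2) → Bool) (N : ℕ),
        N ≤ ∑ j ∈ S, D.n j + m₀ * J.card + m₆ + 4 * ∑ q ∈ T0, q.cost RS ω'
          + 4 * ∑ ν ∈ (J ×ˢ (Finset.univ : Finset Bool)).biUnion
              (fun js => anc (cell (D.pt js.1 js.2))), ∑ q ∈ T ν, q.cost RS ω' ∧
        (projS S (TFam κ ω (cube i a : Set (V (n + 2))) D)).ncard ≤
          Zc κ (tr (gAut n U m h π τ) ω) (slab (4 * U) (uvec n U) (2 ^ (m - h + 7))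
            (3 * 2 ^ (m - h + 7))) ((2 ^ (m - h + 7) : ℤ) • uvec n U)
            ((3 * 2 ^ (m - h + 7) : ℤ) • uvec n U) N

variable {κ : Kind} {p : unitInterval} {RS : RoadSys κ (n + 2) p} {C₁ : ℝ}
    {w₀ m₀ m₆ : ℕ} {ε : ℝ} {U m h i : ℕ} {a : V (n + 2)} {X : Type*}

open Classical in
/-- conversion of labels -/
noncomputable def NetX.toHookNet (𝒩 : NetX RS C₁ w₀ m₀ m₆ ε U m h i a X) :
    HookNet RS C₁ w₀ m₀ m₆ ε U m h i a := by
  classical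
  set eC := 𝒩.Cs.equivFin with heC
  set eV := 𝒩.Ns.equivFin with heV
  have hC : ∀ c : Fin 𝒩.Cs.card, ((eC.symm c : {x // x ∈ 𝒩.Cs}) : X) ∈ 𝒩.Cs := fun c => (eC.symm c).2
  have hV : ∀ ν : Fin 𝒩.Ns.card, ((eV.symm ν : {x // x ∈ 𝒩.Ns}) : X) ∈ 𝒩.Ns := fun ν => (eV.symm ν).2
  have injC : Function.Injective fun c : Fin 𝒩.Cs.card => ((eC.symm c : {x // x ∈ 𝒩.Cs}) : X) :=
    fun c c' h => eC.symm.injective (Subtype.ext h)
  have injV : Function.Injective fun ν : Fin 𝒩.Ns.card => ((eV.symm ν : {x // x ∈ 𝒩.Ns}) : X) :=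
    fun c c' h => eV.symm.injective (Subtype.ext h)
  set cell' : V (n + 2) → Fin 𝒩.Cs.card := fun v => eC ⟨𝒩.cell v, 𝒩.cell_mem v⟩ with hcell'
  have hcell : ∀ v, ((eC.symm (cell' v) : {x // x ∈ 𝒩.Cs}) : X) = 𝒩.cell v := by
    intro v
    rw [hcell']
    simp
  have hcelliff : ∀ v c, cell' v = c ↔ 𝒩.cell v = ((eC.symm c : {x // x ∈ 𝒩.Cs}) : X) := by
    intro v c
    rw [← hcell v]
    constructor
    · rintro rfl; rfl
    · intro h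
      exact injC h
  set anc' : Fin 𝒩.Cs.card → Finset (Fin 𝒩.Ns.card) := fun c =>
    Finset.univ.filter fun ν => ((eV.symm ν : {x // x ∈ 𝒩.Ns}) : X) ∈ 𝒩.anc (eC.symm c) with hanc'
  have himg : ∀ c, (anc' c).image (fun ν => ((eV.symm ν : {x // x ∈ 𝒩.Ns}) : X)) =
      𝒩.anc (eC.symm c) := by
    intro c
    ext x
    rw [Finset.mem_image]
    constructor
    · rintro ⟨ν, hν, rfl⟩
      exact (Finset.mem_filter.1 hν).2
    · intro hx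
      have hxN : x ∈ 𝒩.Ns := 𝒩.anc_sub _ (hC c) hx
      refine ⟨eV ⟨x, hxN⟩, Finset.mem_filter.2 ⟨Finset.mem_univ _, ?_⟩, ?_⟩
      · simpa using hx
      · simp
  have hbi : ∀ {β : Type} (s : Finset β) (f : β → Fin 𝒩.Cs.card) (G : X → ℝ),
      ∑ ν ∈ s.biUnion (fun b => anc' (f b)), G (eV.symm ν) =
        ∑ x ∈ s.biUnion (fun b => 𝒩.anc (eC.symm (f b))), G x := by
    intro β s f G
    rw [← Finset.sum_image (f := G) (g := fun ν => ((eV.symm ν : {x // x ∈ 𝒩.Ns}) : X))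
      (s := s.biUnion (fun b => anc' (f b))) (fun x _ y _ h => injV h)]
    congr 1
    rw [Finset.biUnion_image]
    refine Finset.biUnion_congr rfl fun b _ => himg (f b)
  exact
  { nC := 𝒩.Cs.card
    nV := 𝒩.Ns.card
    cell := cell'
    Fl := fun c => 𝒩.Fl (eC.symm c)
    Sp := fun c => 𝒩.Sp (eC.symm c)
    Fl0 := 𝒩.Fl0
    Sp0 := 𝒩.Sp0
    wt := fun ν => 𝒩.wt (eV.symm ν)
    anc := anc'
    T := fun ν => 𝒩.T (eV.symm ν)
    T0 := 𝒩.T0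
    cell_card := by
      intro c
      have := 𝒩.cell_card _ (hC c)
      refine le_trans (le_of_eq ?_) this
      congr 1
      refine Finset.filter_congr fun v _ => ?_
      rw [hcelliff]
    Fl_card := fun c => 𝒩.Fl_card _ (hC c)
    Fl0_card := 𝒩.Fl0_card
    Sp_sub := fun c => 𝒩.Sp_sub _ (hC c)
    Sp0_sub := 𝒩.Sp0_sub
    Fl_disj := fun c c' h => 𝒩.Fl_disj _ (hC c) _ (hC c') fun h' => h (injC h')
    Fl0_disj := fun c => 𝒩.Fl0_disj _ (hC c)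
    Fl_out := fun c => 𝒩.Fl_out _ (hC c)
    Fl0_out := 𝒩.Fl0_out
    aut := by
      rintro q (h | ⟨ν, h⟩)
      · exact 𝒩.aut q (Or.inl h)
      · exact 𝒩.aut q (Or.inr ⟨_, hV ν, h⟩)
    dep_out := by
      intro q hq e he
      have h1 : q ∈ 𝒩.T0 ∨ ∃ ν ∈ 𝒩.Ns, q ∈ 𝒩.T ν := by
        rcases hq with h | ⟨ν, h⟩
        · exact Or.inl h
        · exact Or.inr ⟨_, hV ν, h⟩
      obtain ⟨g1, g2, g3⟩ := 𝒩.dep_out q h1 e he
      exact ⟨g1, g2, fun c => g3 _ (hC c)⟩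
    wt_ge := fun ν => 𝒩.wt_ge _ (hV ν)
    anc_card := by
      intro c w
      refine le_trans ?_ (𝒩.anc_card _ (hC c) w)
      rw [← himg c]
      have : (((anc' c).filter fun ν => 𝒩.wt (eV.symm ν) = w).image
          (fun ν => ((eV.symm ν : {x // x ∈ 𝒩.Ns}) : X))) ⊆
          (((anc' c).image (fun ν => ((eV.symm ν : {x // x ∈ 𝒩.Ns}) : X))).filter
            fun ν => 𝒩.wt ν = w) := by
        intro x hx
        rw [Finset.mem_image] at hx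
        obtain ⟨ν, hν, rfl⟩ := hx
        rw [Finset.mem_filter] at hν ⊢
        exact ⟨Finset.mem_image_of_mem _ hν.1, hν.2⟩
      have h2 := Finset.card_le_card this
      rw [Finset.card_image_of_injective _ injV] at h2
      exact_mod_cast h2
    T_card := fun ν => 𝒩.T_card _ (hV ν)
    T_rad := fun ν => 𝒩.T_rad _ (hV ν)
    T0_card := 𝒩.T0_card
    T0_sum := 𝒩.T0_sum
    cnt := by
      intro 𝒞 k hk h𝒞
      have h1 := 𝒩.cnt (𝒞.image fun c => ((eC.symm c : {x // x ∈ 𝒩.Cs}) : X)) k ?_ hk ?_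
      · refine le_trans (le_of_eq ?_) h1
        have := hbi 𝒞 id (fun x => (𝒩.wt x : ℝ))
        simp only [id] at this
        rw [this]
        congr 1
        rw [Finset.image_biUnion]
      · intro x hx
        rw [Finset.mem_image] at hx
        obtain ⟨c, -, rfl⟩ := hx
        exact hC c
      · exact Finset.card_image_le.trans h𝒞
    link := by
      intro ω ω' D J v h1 h2 h3 h4 h5 h6 h7 h8 h9 h10
      have g5 : ∀ c, ((J ×ˢ (Finset.univ : Finset Bool)).filter fun js =>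
          𝒩.cell (D.pt js.1 js.2) = c).card ≤ 2 := by
        intro c
        by_cases hc : c ∈ 𝒩.Cs
        · refine le_trans (le_of_eq ?_) (h5 (eC ⟨c, hc⟩))
          congr 1
          refine Finset.filter_congr fun js _ => ?_
          rw [hcelliff]
          simp
        · rw [Finset.filter_false_of_mem]
          · simp
          · intro js _ h'
            exact hc (h' ▸ 𝒩.cell_mem _)
      have g6 : ∀ e, e ∉ 𝒩.Sp0 → (∀ c ∈ 𝒩.Cs, e ∉ 𝒩.Sp c) → ω e = ω' e := by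
        intro e he0 he
        exact h6 e he0 fun c => he _ (hC c)
      have g8 : ∀ j ∈ J, ∀ s, ∀ e ∈ 𝒩.Fl (𝒩.cell (D.pt j s)), ω e = true := by
        intro j hj s e he
        refine h8 j hj s e ?_
        show e ∈ 𝒩.Fl (eC.symm (cell' (D.pt j s)))
        rw [hcell]
        exact he
      have g10 : ∀ j ∈ J, ∀ s, ∀ ν ∈ 𝒩.anc (𝒩.cell (D.pt j s)), ∀ q ∈ 𝒩.T ν, q.ok RS ω' := by
        intro j hj s ν hν q hq
        have hνN : ν ∈ 𝒩.Ns := 𝒩.anc_sub _ (𝒩.cell_mem _) hν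
        refine h10 j hj s (eV ⟨ν, hνN⟩) ?_ q ?_
        · rw [hanc']
          simp only [Finset.mem_filter, Finset.mem_univ, true_and]
          rw [hcell]
          simpa using hν
        · simpa using hq
      obtain ⟨S, hS, hSn, hv, π, τ, N, hN, hZ⟩ := 𝒩.link ω ω' D J v h1 h2 h3 h4 g5 g6 h7 g8 h9 g10
      refine ⟨S, hS, hSn, hv, π, τ, N, ?_, hZ⟩
      refine hN.trans (le_of_eq ?_)
      congr 2
      have := hbi (J ×ˢ (Finset.univ : Finset Bool)) (fun js => cell' (D.pt js.1 js.2))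
        (fun x => ((∑ q ∈ 𝒩.T x, q.cost RS ω' : ℕ) : ℝ))
      simp only [hcell] at this
      have h' : ((∑ ν ∈ (J ×ˢ (Finset.univ : Finset Bool)).biUnion
          (fun js => anc' (cell' (D.pt js.1 js.2))), ∑ q ∈ 𝒩.T (eV.symm ν), q.cost RS ω' : ℕ) : ℝ) =
          ((∑ ν ∈ (J ×ˢ (Finset.univ : Finset Bool)).biUnion
          (fun js => 𝒩.anc (𝒩.cell (D.pt js.1 js.2))), ∑ q ∈ 𝒩.T ν, q.cost RS ω' : ℕ) : ℝ) := by
        rw [Nat.cast_sum, Nat.cast_sum]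
        exact this
      exact (Nat.cast_injective h').symm }

end Pool.Agent.H94.HG
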