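import Mathlib

/-!
# HG: the numerical part of the field `cnt` of `HookNet`

Levels `l = 1, …, D (i - k0)`, weight `w l = 2^(k0 + (l-1)/D)`, at most `c 2^(D (i-k0) - l)` nodes at
level `l` and at most `2 k` of them above the given base cells. Interpolation
`min A B ≤ A^γ B^(1-γ)` with `γ = 1 - 1/(2D)` and a geometric sum.
-/

namespace Pool.Agent.H94.HG

open Finset

lemma min_le_interp {A B g : ℝ} (hA : 0 ≤ A) (hB : 0 ≤ B) (hg0 : 0 ≤ g) (hg1 : g ≤ 1) :
    min A B ≤ A ^ g * B ^ (1 - g) := by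
  have hm : 0 ≤ min A B := le_min hA hB
  rcases hm.eq_or_lt with h0 | h0
  · rw [← h0]; positivity
  · calc min A B = (min A B) ^ (g + (1 - g)) := by rw [add_sub_cancel, Real.rpow_one]
      _ = (min A B) ^ g * (min A B) ^ (1 - g) := Real.rpow_add h0 _ _
      _ ≤ A ^ g * B ^ (1 - g) := by
          refine mul_le_mul (Real.rpow_le_rpow hm (min_le_left _ _) hg0)
            (Real.rpow_le_rpow hm (min_le_right _ _) (by linarith)) (by positivity) (by positivity)

/-- THE COUNT. -/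
theorem cnt_num (D : ℕ) (hD : 1 ≤ D) (c : ℝ) (hc : 0 ≤ c) : ∃ C : ℝ, 1 ≤ C ∧ ∀ (k0 i k : ℕ), k0 ≤ i → 1 ≤ k →
    ∑ l ∈ Icc 1 (D * (i - k0)), (2 : ℝ) ^ (k0 + (l - 1) / D) *
      min (2 * (k : ℝ)) (c * 2 ^ (D * (i - k0) - l)) ≤
      C * 2 ^ i * (k : ℝ) ^ (1 - 1 / (2 * (D : ℝ))) := by
  set g : ℝ := 1 - 1 / (2 * (D : ℝ)) with hg
  have hDpos : (0 : ℝ) < D := by exact_mod_cast hD
  have hg1 : g ≤ 1 := by rw [hg]; have : 0 ≤ 1 / (2 * (D : ℝ)) := by positivity
                         linarith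
  have hg0 : 0 ≤ g := by
    rw [hg, sub_nonneg, div_le_one (by positivity)]
    have : (1 : ℝ) ≤ D := by exact_mod_cast hD
    linarith
  have h1g : 1 - g = 1 / (2 * (D : ℝ)) := by rw [hg]; ring
  set s : ℝ := (2 : ℝ) ^ (-(1 / 2) : ℝ) with hs
  have hs0 : 0 < s := by positivity
  have hs1 : s < 1 := by
    rw [hs]; exact Real.rpow_lt_one_of_one_lt_of_neg (by norm_num) (by norm_num)
  refine ⟨max 1 (2 * (max c 1) * (D * (1 - s)⁻¹)), le_max_left _ _, ?_⟩
  intro k0 i k hki hk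
  have hkpos : (0 : ℝ) < k := by exact_mod_cast hk
  -- each term
  have hterm : ∀ l ∈ Icc 1 (D * (i - k0)), (2 : ℝ) ^ (k0 + (l - 1) / D) *
      min (2 * (k : ℝ)) (c * 2 ^ (D * (i - k0) - l)) ≤
      (2 * (max c 1)) * 2 ^ i * (k : ℝ) ^ g * s ^ ((i - k0) - 1 - (l - 1) / D) := by
    intro l hl
    rw [mem_Icc] at hl
    obtain ⟨hl1, hl2⟩ := hl
    set t : ℕ := (l - 1) / D with ht
    have ht1 : t * D ≤ l - 1 := Nat.div_mul_le_self _ _
    have ht2 : t + 1 ≤ i - k0 := by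
      rw [ht]
      have : (l - 1) / D < i - k0 := by
        rw [Nat.div_lt_iff_lt_mul hD]
        rw [mul_comm] at hl2
        omega
      omega
    have h1 := min_le_interp (A := 2 * (k : ℝ)) (B := c * 2 ^ (D * (i - k0) - l)) (g := g)
      (by positivity) (by positivity) hg0 hg1
    have h2 : (2 * (k : ℝ)) ^ g ≤ 2 * (k : ℝ) ^ g := by
      rw [Real.mul_rpow (by norm_num) hkpos.le]
      have : (2 : ℝ) ^ g ≤ 2 ^ (1 : ℝ) := Real.rpow_le_rpow_of_exponent_le (by norm_num) hg1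
      rw [Real.rpow_one] at this
      gcongr
    have h3 : (c * 2 ^ (D * (i - k0) - l)) ^ (1 - g) ≤ (max c 1) * (2 : ℝ) ^ (((i - k0 - t : ℕ) : ℝ) / 2) := by
      rw [Real.mul_rpow hc (by positivity)]
      have h4 : c ^ (1 - g) ≤ max c 1 := by
        rcases le_total c 1 with h | h
        · exact (Real.rpow_le_one hc h (by linarith)).trans (le_max_right _ _)
        · calc c ^ (1 - g) ≤ c ^ (1 : ℝ) := Real.rpow_le_rpow_of_exponent_le h (by linarith)
            _ = c := Real.rpow_one c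
            _ ≤ _ := le_max_left _ _
      have h5 : ((2 : ℝ) ^ (D * (i - k0) - l)) ^ (1 - g) ≤ (2 : ℝ) ^ (((i - k0 - t : ℕ) : ℝ) / 2) := by
        rw [h1g, ← Real.rpow_natCast, ← Real.rpow_mul (by norm_num)]
        refine Real.rpow_le_rpow_of_exponent_le (by norm_num) ?_
        have h6 : D * (i - k0) - l ≤ D * (i - k0 - t) := by
          have : D * (i - k0 - t) = D * (i - k0) - D * t := Nat.mul_sub _ _ _
          rw [this]
          have : D * t ≤ l := by rw [mul_comm]; omega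
          omega
        have h7 : ((D * (i - k0) - l : ℕ) : ℝ) ≤ D * ((i - k0 - t : ℕ) : ℝ) := by exact_mod_cast h6
        calc ((D * (i - k0) - l : ℕ) : ℝ) * (1 / (2 * (D : ℝ))) ≤
            (D * ((i - k0 - t : ℕ) : ℝ)) * (1 / (2 * (D : ℝ))) := by gcongr
          _ = ((i - k0 - t : ℕ) : ℝ) / 2 := by field_simp
      gcongr
    have hA : (2 : ℝ) ^ (k0 + t) * (2 : ℝ) ^ (((i - k0 - t : ℕ) : ℝ) / 2) =
        2 ^ i * s ^ (i - k0 - t) := by
      rw [hs, ← Real.rpow_natCast, ← Real.rpow_natCast, ← Real.rpow_natCast, ← Real.rpow_mul (by norm_num),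
        ← Real.rpow_add (by norm_num), ← Real.rpow_add (by norm_num)]
      congr 1
      have : ((i - k0 - t : ℕ) : ℝ) = (i : ℝ) - k0 - t := by
        rw [Nat.cast_sub (by omega), Nat.cast_sub hki]
      rw [this]; push_cast; ring
    have hB : s ^ (i - k0 - t) ≤ s ^ (i - k0 - 1 - t) :=
      pow_le_pow_of_le_one hs0.le hs1.le (by omega)
    calc (2 : ℝ) ^ (k0 + t) * min (2 * (k : ℝ)) (c * 2 ^ (D * (i - k0) - l))
        ≤ (2 : ℝ) ^ (k0 + t) * ((2 * (k : ℝ) ^ g) * ((max c 1) * (2 : ℝ) ^ (((i - k0 - t : ℕ) : ℝ) / 2))) := by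
          refine mul_le_mul_of_nonneg_left (h1.trans ?_) (by positivity)
          exact mul_le_mul h2 h3 (by positivity) (by positivity)
      _ = (2 * (max c 1)) * (k : ℝ) ^ g * ((2 : ℝ) ^ (k0 + t) * (2 : ℝ) ^ (((i - k0 - t : ℕ) : ℝ) / 2)) := by ring
      _ = (2 * (max c 1)) * (k : ℝ) ^ g * (2 ^ i * s ^ (i - k0 - t)) := by rw [hA]
      _ ≤ (2 * (max c 1)) * (k : ℝ) ^ g * (2 ^ i * s ^ (i - k0 - 1 - t)) := by gcongr
      _ = _ := by ring
  have hsum : ∑ l ∈ Icc 1 (D * (i - k0)), s ^ ((i - k0) - 1 - (l - 1) / D) ≤ D * (1 - s)⁻¹ := by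
    -- group by t
    have h1 : ∑ l ∈ Icc 1 (D * (i - k0)), s ^ ((i - k0) - 1 - (l - 1) / D) =
        ∑ l ∈ range (D * (i - k0)), s ^ ((i - k0) - 1 - l / D) := by
      refine Finset.sum_bij' (fun l _ => l - 1) (fun l _ => l + 1) ?_ ?_ ?_ ?_ ?_
      · intro l hl; rw [mem_Icc] at hl; rw [mem_range]; omega
      · intro l hl; rw [mem_range] at hl; rw [mem_Icc]; omega
      · intro l hl; rw [mem_Icc] at hl; omega
      · intro l _; simp
      · intro l _; rfl
    rw [h1]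
    have h2 : ∀ T : ℕ, ∑ l ∈ range (D * T), s ^ (T - 1 - l / D) = D * ∑ t ∈ range T, s ^ (T - 1 - t) := by
      intro T
      have h3 : ∀ (f : ℕ → ℝ) (T : ℕ), ∑ l ∈ range (D * T), f (l / D) = D * ∑ t ∈ range T, f t := by
        intro f T
        induction T with
        | zero => simp
        | succ T ih =>
          rw [Nat.mul_succ, Finset.sum_range_add, ih, Finset.sum_range_succ, mul_add]
          congr 1
          have : ∀ x ∈ range D, f ((D * T + x) / D) = f T := by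
            intro x hx
            rw [mem_range] at hx
            congr 1
            rw [Nat.mul_add_div hD, Nat.div_eq_of_lt hx, add_zero]
          rw [Finset.sum_congr rfl this]
          simp
      exact h3 (fun t => s ^ (T - 1 - t)) T
    rw [h2, Finset.sum_range_reflect (fun t => s ^ t) (i - k0)]
    refine mul_le_mul_of_nonneg_left ?_ hDpos.le
    rw [← tsum_geometric_of_lt_one hs0.le hs1]
    exact Summable.sum_le_tsum _ (fun _ _ => by positivity) (summable_geometric_of_lt_one hs0.le hs1)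
  calc ∑ l ∈ Icc 1 (D * (i - k0)), (2 : ℝ) ^ (k0 + (l - 1) / D) *
      min (2 * (k : ℝ)) (c * 2 ^ (D * (i - k0) - l))
      ≤ ∑ l ∈ Icc 1 (D * (i - k0)),
        (2 * (max c 1)) * 2 ^ i * (k : ℝ) ^ g * s ^ ((i - k0) - 1 - (l - 1) / D) := Finset.sum_le_sum hterm
    _ = (2 * (max c 1)) * 2 ^ i * (k : ℝ) ^ g *
        ∑ l ∈ Icc 1 (D * (i - k0)), s ^ ((i - k0) - 1 - (l - 1) / D) := by rw [Finset.mul_sum]
    _ ≤ (2 * (max c 1)) * 2 ^ i * (k : ℝ) ^ g * (D * (1 - s)⁻¹) := by gcongr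
    _ = (2 * (max c 1) * (D * (1 - s)⁻¹)) * 2 ^ i * (k : ℝ) ^ g := by ring
    _ ≤ _ := by
        have := le_max_right 1 (2 * (max c 1) * (D * (1 - s)⁻¹))
        gcongr

end Pool.Agent.H94.HG
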